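import Mathlib

/-!
Covering dimension, `Widim`, sofic approximation sequences and sofic mean dimension.
-/

set_option autoImplicit false

open Filter Topology

noncomputable section

namespace Pool.Agent.V11111.SD

/-- `U` is a finite open cover of `P`. -/
structure IsFinOpenCover {P : Type} [TopologicalSpace P] (U : Set (Set P)) : Prop where
  finite : U.Finite
  isOpen : ∀ u ∈ U, IsOpen u
  cover : ⋃₀ U = Set.univ

/-- Every finite open cover of `P` has a finite open refinement such that every point is in at most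
`k + 1` members: the covering dimension of `P` is at most `k`. -/
def CovDimLE (P : Type) [TopologicalSpace P] (k : ℕ) : Prop :=
  ∀ U : Set (Set P), IsFinOpenCover U → ∃ V : Set (Set P), IsFinOpenCover V ∧
    (∀ v ∈ V, ∃ u ∈ U, v ⊆ u) ∧ ∀ p, {v | v ∈ V ∧ p ∈ v}.ncard ≤ k + 1

open Classical in
/-- The Lebesgue covering dimension; it is `-∞` for the empty space. -/
def covDim (P : Type) [TopologicalSpace P] : EReal :=
  if IsEmpty P then ⊥ else ⨅ (k : ℕ) (_ : CovDimLE P k), ((k : ℝ) : EReal)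

/-- `Widim_ε(Z, ρ_∞)` for `Z ⊆ X^d`: the least dimension of a compact metrizable space `P` with a
continuous map `f : Z → P` all whose fibres have `ρ_∞`-distances `< ε`. The distance of `Fin d → X`
is the maximum distance `ρ_∞`. -/
def Widim {X : Type} [MetricSpace X] {d : ℕ} (ε : ℝ) (Z : Set (Fin d → X)) : EReal :=
  ⨅ (P : Type) (_ : TopologicalSpace P) (_ : CompactSpace P)
    (_ : TopologicalSpace.MetrizableSpace P) (f : Z → P) (_ : Continuous f)
    (_ : ∀ z z' : Z, f z = f z' → dist (z : Fin d → X) (z' : Fin d → X) < ε), covDim P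

/-- A sofic approximation sequence of `Γ`: maps `σ i : Γ → Sym(d i)` with `d i → ∞` which are
asymptotically multiplicative and asymptotically free. -/
structure Sofic (Γ : Type) [Group Γ] where
  d : ℕ → ℕ
  σ : (i : ℕ) → Γ → Equiv.Perm (Fin (d i))
  tendsto : Tendsto d atTop atTop
  mul : ∀ s t : Γ, Tendsto
    (fun i => ({a | σ i (s * t) a = σ i s (σ i t a)}.ncard : ℝ) / d i) atTop (𝓝 1)
  free : ∀ s t : Γ, s ≠ t → Tendsto
    (fun i => ({a | σ i s a ≠ σ i t a}.ncard : ℝ) / d i) atTop (𝓝 1)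

section Dyn

variable {Γ : Type} [Group Γ] {X : Type} [MetricSpace X] [MulAction Γ X]

/-- `ρ₂(φ, ψ) = (1/d ∑ ρ(φ(l), ψ(l))²)^(1/2)`. -/
def rhoTwo {d : ℕ} (φ ψ : Fin d → X) : ℝ := Real.sqrt ((∑ a, dist (φ a) (ψ a) ^ 2) / d)

/-- `Map(ρ, F, δ, σ)`: all maps `φ` from `{1, ..., d}` to `X` with
`ρ₂(φ ∘ σ(s), s φ) ≤ δ` for all `s ∈ F`. -/
def MapS (F : Finset Γ) (δ : ℝ) {d : ℕ} (σ : Γ → Equiv.Perm (Fin d)) : Set (Fin d → X) :=
  {φ | ∀ s ∈ F, rhoTwo (fun a => φ (σ s a)) (fun a => s • φ a) ≤ δ}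

variable (X) in
/-- The sofic mean dimension
`sup_ε inf_F inf_δ limsup_i Widim_ε(Map(ρ, F, δ, σ_i), ρ_∞) / d_i`. -/
def mdim (S : Sofic Γ) : EReal :=
  ⨆ ε : {ε : ℝ // 0 < ε}, ⨅ F : Finset Γ, ⨅ δ : {δ : ℝ // 0 < δ},
    limsup (fun i => Widim ε.1 (MapS (X := X) F δ.1 (S.σ i)) / ((S.d i : ℝ) : EReal)) atTop

end Dyn

end Pool.Agent.V11111.SD
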