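import Pool.Agent.V11111.SD.Main

/-!
The sofic mean dimension of actions of infinite groups on finite-dimensional spaces: conclusion.
-/

set_option autoImplicit false

open Filter Topology Set

noncomputable section

namespace Pool.Agent.V11111.SD

variable {Γ : Type} [Group Γ]

theorem free_small (S : Sofic Γ) {g h : Γ} (hgh : g ≠ h) {τ : ℝ} (hτ : 0 < τ) :
    ∀ᶠ i in atTop, ((Finset.univ.filter fun k => S.σ i g k = S.σ i h k).card : ℝ) ≤
      τ * S.d i := by
  have h1 := (S.free g h hgh).eventually (lt_mem_nhds (show (1:ℝ) - τ < 1 by linarith))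
  filter_upwards [h1, S.tendsto.eventually_gt_atTop 0] with i hi hd
  have hd' : (0 : ℝ) < S.d i := by exact_mod_cast hd
  rw [lt_div_iff₀ hd'] at hi
  have h2 : {a | S.σ i g a ≠ S.σ i h a}.ncard =
      (Finset.univ.filter fun k => ¬ S.σ i g k = S.σ i h k).card := by
    rw [ncard_eq_toFinset_card']
    congr 1
    ext a; simp
  rw [h2] at hi
  have h3 := Finset.card_filter_add_card_filter_not (s := (Finset.univ : Finset (Fin (S.d i))))
    (fun k => S.σ i g k = S.σ i h k)
  rw [Finset.card_univ, Fintype.card_fin] at h3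
  have h4 : ((Finset.univ.filter fun k => S.σ i g k = S.σ i h k).card : ℝ) +
    (Finset.univ.filter fun k => ¬ S.σ i g k = S.σ i h k).card = S.d i := by exact_mod_cast h3
  linarith

open Classical in
theorem bad_small (S : Sofic Γ) (F : Finset Γ) {τ : ℝ} (hτ : 0 < τ) :
    ∀ᶠ i in atTop, ((Finset.univ.filter fun k => ¬ ∀ g ∈ F, ∀ h ∈ F, g ≠ h →
      S.σ i g k ≠ S.σ i h k).card : ℝ) ≤ ((F.card : ℝ) * F.card * τ) * S.d i := by
  have h1 : ∀ g ∈ F, ∀ h ∈ F, ∀ᶠ i in atTop, g ≠ h →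
      ((Finset.univ.filter fun k => S.σ i g k = S.σ i h k).card : ℝ) ≤ τ * S.d i := by
    intro g _ h _
    by_cases hgh : g = h
    · exact Eventually.of_forall fun i hne => absurd hgh hne
    · filter_upwards [free_small S hgh hτ] with i hi _
      exact hi
  have h2 : ∀ᶠ i in atTop, ∀ g ∈ F, ∀ h ∈ F, g ≠ h →
      ((Finset.univ.filter fun k => S.σ i g k = S.σ i h k).card : ℝ) ≤ τ * S.d i := by
    rw [Finset.eventually_all]
    intro g hg
    rw [Finset.eventually_all]
    intro h hh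
    exact h1 g hg h hh
  filter_upwards [h2] with i hi
  have hsub : (Finset.univ.filter fun k => ¬ ∀ g ∈ F, ∀ h ∈ F, g ≠ h →
      S.σ i g k ≠ S.σ i h k) ⊆ F.biUnion fun g => F.biUnion fun h =>
        if g ≠ h then (Finset.univ.filter fun k => S.σ i g k = S.σ i h k) else ∅ := by
    intro k hk
    have := (Finset.mem_filter.1 hk).2
    push Not at this
    obtain ⟨g, hg, h, hh, hgh, he⟩ := this
    refine Finset.mem_biUnion.2 ⟨g, hg, Finset.mem_biUnion.2 ⟨h, hh, ?_⟩⟩
    rw [if_pos hgh]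
    exact Finset.mem_filter.2 ⟨Finset.mem_univ _, he⟩
  have hd0 : (0 : ℝ) ≤ τ * S.d i := by positivity
  calc ((Finset.univ.filter fun k => ¬ ∀ g ∈ F, ∀ h ∈ F, g ≠ h →
      S.σ i g k ≠ S.σ i h k).card : ℝ) ≤ ((F.biUnion fun g => F.biUnion fun h =>
        if g ≠ h then (Finset.univ.filter fun k => S.σ i g k = S.σ i h k) else ∅).card : ℝ) := by
        exact_mod_cast Finset.card_le_card hsub
    _ ≤ ∑ g ∈ F, ∑ h ∈ F, ((if g ≠ h then
        (Finset.univ.filter fun k => S.σ i g k = S.σ i h k) else ∅ : Finset _).card : ℝ) := by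
        have hc : (F.biUnion fun g => F.biUnion fun h => if g ≠ h then
            (Finset.univ.filter fun k => S.σ i g k = S.σ i h k) else ∅).card ≤
            ∑ g ∈ F, ∑ h ∈ F, (if g ≠ h then
              (Finset.univ.filter fun k => S.σ i g k = S.σ i h k) else ∅ : Finset _).card :=
          Finset.card_biUnion_le.trans (Finset.sum_le_sum fun g _ => Finset.card_biUnion_le)
        exact_mod_cast hc
    _ ≤ ∑ _g ∈ F, ∑ _h ∈ F, τ * S.d i := by
        refine Finset.sum_le_sum fun g hg => Finset.sum_le_sum fun h hh => ?_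
        by_cases hgh : g = h
        · simp only [hgh, ne_eq, not_true_eq_false, if_false, Finset.card_empty, Nat.cast_zero]
          exact hd0
        · rw [if_pos hgh]
          exact hi g hg h hh hgh
    _ = ((F.card : ℝ) * F.card * τ) * S.d i := by
        rw [Finset.sum_const, Finset.sum_const, nsmul_eq_mul, nsmul_eq_mul]; ring

theorem mdim_le [Infinite Γ] (S : Sofic Γ) (X : Type) [MetricSpace X] [CompactSpace X]
    [MulAction Γ X] [ContinuousConstSMul Γ X] (hX : covDim X < ⊤) : mdim X S ≤ 0 := by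
  classical
  obtain ⟨D, hD⟩ := exists_of_covDim hX
  unfold mdim
  refine iSup_le fun ε => ?_
  obtain ⟨ε, hε⟩ := ε
  by_contra hcon
  push Not at hcon
  obtain ⟨θ, hθ0, hθ1⟩ := EReal.lt_iff_exists_real_btwn.1 hcon
  have hθ : 0 < θ := by exact_mod_cast hθ0
  refine absurd hθ1 (not_lt.2 ?_)
  obtain ⟨K, hK⟩ := exists_nat_gt (4 * (D + 1) / θ)
  have hK0 : (0 : ℝ) < K := lt_trans (by positivity) hK
  obtain ⟨F, hF⟩ := Infinite.exists_subset_card_eq Γ K
  obtain ⟨κ, hκ, hκF⟩ := exists_kappa (X := X) F hε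
  set c : ℝ := θ / 4 * (κ / 2) ^ 2 / ((D + 1) * (1 + (K : ℝ) ^ 2) * K) with hc
  have hc0 : 0 < c := by positivity
  set δ : ℝ := min 1 c with hδ
  have hδ0 : 0 < δ := lt_min one_pos hc0
  have hδ2 : δ ^ 2 ≤ c := by
    have h1 : δ ≤ 1 := min_le_left _ _
    have h2 : δ ≤ c := min_le_right _ _
    nlinarith
  refine iInf_le_of_le F (iInf_le_of_le ⟨δ, hδ0⟩ ?_)
  apply limsup_le_of_le
  · isBoundedDefault
  have hτ : 0 < θ / (4 * (D + 1) * K * K) := by positivity
  filter_upwards [S.tendsto.eventually_gt_atTop 0, bad_small S F hτ] with i hd hb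
  have hd' : (0 : ℝ) < S.d i := by exact_mod_cast hd
  obtain ⟨T, hT, hw⟩ := widim_le hD hε F hκ hκF hδ0 hd (S.σ i)
  have hle : Widim ε (MapS (X := X) F δ (S.σ i)) ≤ ((θ * S.d i : ℝ) : EReal) := by
    refine hw.trans ?_
    rw [EReal.coe_le_coe_iff]
    push_cast
    rw [hF] at hT hb ⊢
    have h1 : (T.card : ℝ) * K ≤ S.d i := by exact_mod_cast hT
    have h2 : (D : ℝ) * T.card ≤ θ / 4 * S.d i := by
      have h3 : (T.card : ℝ) ≤ S.d i / K := by rw [le_div_iff₀ hK0]; exact h1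
      have h4 : (D : ℝ) / K ≤ θ / 4 := by
        rw [div_le_iff₀ hK0]
        rw [div_lt_iff₀ hθ] at hK
        linarith
      calc (D : ℝ) * T.card ≤ D * (S.d i / K) := mul_le_mul_of_nonneg_left h3 (by positivity)
        _ = D / K * S.d i := by ring
        _ ≤ θ / 4 * S.d i := mul_le_mul_of_nonneg_right h4 hd'.le
    have h5 : (D : ℝ) * (Finset.univ.filter fun k => ¬ ∀ g ∈ F, ∀ h ∈ F, g ≠ h →
        S.σ i g k ≠ S.σ i h k).card ≤ θ / 4 * S.d i := by
      refine (mul_le_mul_of_nonneg_left hb (by positivity)).trans ?_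
      rw [← mul_assoc]
      refine mul_le_mul_of_nonneg_right ?_ hd'.le
      have e : (K : ℝ) * K * (θ / (4 * (D + 1) * K * K)) = θ / (4 * (D + 1)) := by
        field_simp
      rw [e, ← mul_div_assoc, div_le_div_iff₀ (by positivity) (by norm_num)]
      nlinarith
    have h6 : ((D : ℝ) + 1) * (⌊(1 + (K : ℝ) ^ 2) * (K * (δ ^ 2 / (κ / 2) ^ 2 * S.d i))⌋₊ : ℝ) ≤
        θ / 4 * S.d i := by
      have h7 := Nat.floor_le (show 0 ≤ (1 + (K : ℝ) ^ 2) *
        (K * (δ ^ 2 / (κ / 2) ^ 2 * S.d i)) by positivity)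
      refine (mul_le_mul_of_nonneg_left h7 (by positivity)).trans ?_
      have e : ((D : ℝ) + 1) * ((1 + (K : ℝ) ^ 2) * (K * (δ ^ 2 / (κ / 2) ^ 2 * S.d i))) =
          (((D : ℝ) + 1) * (1 + (K : ℝ) ^ 2) * K * δ ^ 2 / (κ / 2) ^ 2) * S.d i := by ring
      rw [e]
      refine mul_le_mul_of_nonneg_right ?_ hd'.le
      rw [div_le_iff₀ (by positivity)]
      calc ((D : ℝ) + 1) * (1 + (K : ℝ) ^ 2) * K * δ ^ 2 ≤
            ((D : ℝ) + 1) * (1 + (K : ℝ) ^ 2) * K * c :=
            mul_le_mul_of_nonneg_left hδ2 (by positivity)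
        _ = θ / 4 * (κ / 2) ^ 2 := by
            rw [hc]; field_simp
    have h8 : 0 < θ * S.d i := by positivity
    rw [mul_add]
    linarith
  have h9 := EReal.div_le_div_right_of_nonneg (c := ((S.d i : ℝ) : EReal))
    (by exact_mod_cast hd'.le) hle
  refine h9.trans (le_of_eq ?_)
  rw [← EReal.coe_div]
  congr 1
  field_simp

end Pool.Agent.V11111.SD
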