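import Pool.Agent.V11111.SD.Defs

/-!
Partition of unity maps, a maximal separated set, and counting.
-/

set_option autoImplicit false

open Filter Topology Set

noncomputable section

namespace Pool.Agent.V11111.SD

theorem exists_pi {X : Type} [MetricSpace X] [CompactSpace X] {D : ℕ} (hD : CovDimLE X D) {η : ℝ}
    (hη : 0 < η) : ∃ (ι : Type) (_ : Fintype ι) (π : X → ι → ℝ),
      (∀ v, Continuous fun x => π x v) ∧ (∀ x v, 0 ≤ π x v) ∧ (∀ x, ∑ v, π x v = 1) ∧
      (∀ x, {v | π x v ≠ 0}.ncard ≤ D + 1) ∧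
      ∀ x y v, π x v ≠ 0 → π y v ≠ 0 → dist x y < η := by
  classical
  obtain ⟨t, _, ht, htc⟩ := (isCompact_univ (X := X)).finite_cover_balls (half_pos hη)
  obtain ⟨V, hV, hVU, hVk⟩ := hD ((fun x => Metric.ball x (η / 2)) '' t) (by
    refine ⟨ht.image _, ?_, ?_⟩
    · rintro _ ⟨x, _, rfl⟩; exact Metric.isOpen_ball
    · apply Set.eq_univ_of_forall
      intro x
      obtain ⟨y, hy, hxy⟩ := mem_iUnion₂.1 (htc (mem_univ x))
      exact ⟨_, ⟨y, hy, rfl⟩, hxy⟩)
  let _ : Fintype V := hV.finite.fintype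
  have hcov : (univ : Set X) ⊆ ⋃ v : V, v.1 := by
    intro x _
    have : x ∈ ⋃₀ V := by rw [hV.cover]; trivial
    obtain ⟨v, hv, hxv⟩ := this
    exact mem_iUnion.2 ⟨⟨v, hv⟩, hxv⟩
  obtain ⟨f, hf⟩ := PartitionOfUnity.exists_isSubordinate isClosed_univ (fun v : V => v.1)
    (fun v => hV.isOpen v.1 v.2) hcov
  have hmem : ∀ (x : X) (v : V), f v x ≠ 0 → x ∈ v.1 := fun x v hx =>
    hf v (subset_tsupport _ hx)
  refine ⟨V, inferInstance, fun x v => f v x, fun v => (f v).continuous, fun x v => f.nonneg v x,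
    ?_, ?_, ?_⟩
  · intro x
    have := f.sum_eq_one (mem_univ x)
    rwa [finsum_eq_sum_of_fintype] at this
  · intro x
    refine le_trans ?_ (hVk x)
    apply Set.ncard_le_ncard_of_injOn (fun v : V => v.1)
    · intro v hv
      exact ⟨v.2, hmem x v hv⟩
    · intro v _ v' _ h
      exact Subtype.ext h
  · intro x y v hx hy
    obtain ⟨u, ⟨z, _, rfl⟩, hvu⟩ := hVU v.1 v.2
    have h1 := Metric.mem_ball.1 (hvu (hmem x v hx))
    have h2 := Metric.mem_ball.1 (hvu (hmem y v hy))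
    calc dist x y ≤ dist x z + dist y z := dist_triangle_right x y z
      _ < η := by linarith

theorem exists_maxset {Γ : Type} {d : ℕ} (F : Finset Γ) (σ : Γ → Equiv.Perm (Fin d)) :
    ∃ S : Finset (Fin d), S.card * F.card ≤ d ∧ ∀ k,
      (∀ g ∈ F, ∀ h ∈ F, g ≠ h → σ g k ≠ σ h k) → k ∉ S →
      ∃ s ∈ S, ∃ g ∈ F, ∃ h ∈ F, σ g k = σ h s := by
  classical
  set 𝒮 : Finset (Finset (Fin d)) := Finset.univ.filter fun S =>
    (∀ s ∈ S, ∀ g ∈ F, ∀ h ∈ F, g ≠ h → σ g s ≠ σ h s) ∧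
    ∀ s ∈ S, ∀ s' ∈ S, s ≠ s' → ∀ g ∈ F, ∀ h ∈ F, σ g s ≠ σ h s' with h𝒮
  have hne : 𝒮.Nonempty := ⟨∅, by
    rw [h𝒮, Finset.mem_filter]
    exact ⟨Finset.mem_univ _, by simp, by simp⟩⟩
  obtain ⟨S, hS, hmax⟩ := Finset.exists_max_image 𝒮 Finset.card hne
  have hS' := (Finset.mem_filter.1 hS).2
  refine ⟨S, ?_, ?_⟩
  · rw [← Finset.card_product]
    calc (S ×ˢ F).card ≤ (Finset.univ : Finset (Fin d)).card := by
          apply Finset.card_le_card_of_injOn (fun q => σ q.2 q.1)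
          · intro q _; exact Finset.mem_coe.2 (Finset.mem_univ _)
          · rintro ⟨s, g⟩ hq ⟨s', g'⟩ hq' heq
            simp only [Finset.coe_product, Set.mem_prod, Finset.mem_coe] at hq hq' heq
            have h1 : s = s' := by
              by_contra hne
              exact hS'.2 s hq.1 s' hq'.1 hne g hq.2 g' hq'.2 heq
            subst h1
            have h2 : g = g' := by
              by_contra hne
              exact hS'.1 s hq.1 g hq.2 g' hq'.2 hne heq
            rw [h2]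
      _ = d := by rw [Finset.card_univ, Fintype.card_fin]
  · intro k hk hkS
    by_contra hcon
    push Not at hcon
    have h1 : insert k S ∈ 𝒮 := by
      rw [h𝒮, Finset.mem_filter]
      refine ⟨Finset.mem_univ _, ?_, ?_⟩
      · intro s hs
        rcases Finset.mem_insert.1 hs with rfl | hs
        · exact hk
        · exact hS'.1 s hs
      · intro s hs s' hs' hss g hg h hh
        rcases Finset.mem_insert.1 hs with h1 | hs
        · rcases Finset.mem_insert.1 hs' with h2 | hs'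
          · exact absurd (h1.trans h2.symm) hss
          · rw [h1]; exact hcon s' hs' g hg h hh
        · rcases Finset.mem_insert.1 hs' with h2 | hs'
          · rw [h2]; exact fun e => hcon s hs h hh g hg e.symm
          · exact hS'.2 s hs s' hs' hss g hg h hh
    have h2 := hmax _ h1
    rw [Finset.card_insert_of_notMem hkS] at h2
    omega

theorem cheb {X : Type} [MetricSpace X] {d : ℕ} (hd : 0 < d) (φ ψ : Fin d → X) {δ κ : ℝ}
    (hδ : 0 ≤ δ) (hκ : 0 < κ) (h : rhoTwo φ ψ ≤ δ) :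
    (((Finset.univ.filter fun a => κ ≤ dist (φ a) (ψ a)).card : ℕ) : ℝ) ≤ δ ^ 2 / κ ^ 2 * d := by
  have hd' : (0 : ℝ) < d := by exact_mod_cast hd
  have h1 : ∑ a, dist (φ a) (ψ a) ^ 2 ≤ δ ^ 2 * d := by
    unfold rhoTwo at h
    rw [Real.sqrt_le_left hδ, div_le_iff₀ hd'] at h
    exact h
  have h2 : ((Finset.univ.filter fun a => κ ≤ dist (φ a) (ψ a)).card : ℝ) * κ ^ 2 ≤
      ∑ a, dist (φ a) (ψ a) ^ 2 := by
    rw [← nsmul_eq_mul, ← Finset.sum_const]
    calc ∑ _a ∈ Finset.univ.filter (fun a => κ ≤ dist (φ a) (ψ a)), κ ^ 2 ≤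
          ∑ a ∈ Finset.univ.filter (fun a => κ ≤ dist (φ a) (ψ a)), dist (φ a) (ψ a) ^ 2 := by
          apply Finset.sum_le_sum
          intro a ha
          have := (Finset.mem_filter.1 ha).2
          exact pow_le_pow_left₀ hκ.le this 2
      _ ≤ ∑ a, dist (φ a) (ψ a) ^ 2 :=
          Finset.sum_le_sum_of_subset_of_nonneg (Finset.filter_subset _ _)
            fun a _ _ => sq_nonneg _
  rw [div_mul_eq_mul_div, le_div_iff₀ (by positivity)]
  linarith

section Main

variable {Γ : Type} [Group Γ] {X : Type} [MetricSpace X] [CompactSpace X] [MulAction Γ X]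
  [ContinuousConstSMul Γ X]

theorem exists_kappa (F : Finset Γ) {ε : ℝ} (hε : 0 < ε) :
    ∃ κ : ℝ, 0 < κ ∧ ∀ g ∈ F, ∀ x y : X, dist (g • x) (g • y) ≤ 3 * κ → dist x y < ε := by
  have h : ∀ g ∈ F, ∀ᶠ κ in 𝓝[>] (0:ℝ), ∀ x y : X, dist (g • x) (g • y) ≤ 3 * κ →
      dist x y < ε := by
    intro g _
    have hu : UniformContinuous (fun x : X => g⁻¹ • x) :=
      CompactSpace.uniformContinuous_of_continuous (continuous_const_smul g⁻¹)
    obtain ⟨δ, hδ, hδ'⟩ := Metric.uniformContinuous_iff.1 hu ε hε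
    filter_upwards [Ioo_mem_nhdsGT (show (0:ℝ) < δ / 3 by positivity)] with κ hκ x y hxy
    have := hδ' (a := g • x) (b := g • y) (by have := hκ.2; linarith)
    simpa using this
  have h2 := (F.eventually_all (l := 𝓝[>] (0:ℝ))).2 h
  obtain ⟨κ, hκ, hκ0⟩ := (h2.and self_mem_nhdsWithin).exists
  exact ⟨κ, hκ0, hκ⟩

theorem exists_eta (F : Finset Γ) {ε κ : ℝ} (hε : 0 < ε) (hκ : 0 < κ) :
    ∃ η : ℝ, 0 < η ∧ η ≤ ε ∧ ∀ g ∈ F, ∀ x y : X, dist x y < η → dist (g • x) (g • y) < κ := by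
  have h : ∀ g ∈ F, ∀ᶠ η in 𝓝[>] (0:ℝ), ∀ x y : X, dist x y < η →
      dist (g • x) (g • y) < κ := by
    intro g _
    have hu : UniformContinuous (fun x : X => g • x) :=
      CompactSpace.uniformContinuous_of_continuous (continuous_const_smul g)
    obtain ⟨δ, hδ, hδ'⟩ := Metric.uniformContinuous_iff.1 hu κ hκ
    filter_upwards [Ioo_mem_nhdsGT hδ] with η hη x y hxy
    exact hδ' (hxy.trans hη.2)
  have h2 := (F.eventually_all (l := 𝓝[>] (0:ℝ))).2 h
  obtain ⟨η, hη, hη0⟩ := (h2.and (Ioo_mem_nhdsGT hε)).exists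
  exact ⟨η, hη0.1, hη0.2.le, hη⟩

end Main

end Pool.Agent.V11111.SD
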