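import Pool.Agent.V11111.SD.Defs
import Pool.Agent.V11111.MD.Walls

/-!
The covering dimension of sets with few free coordinates.
-/

set_option autoImplicit false

open Filter Topology Set Pool.Agent.V11111.MD

noncomputable section

namespace Pool.Agent.V11111.SD

theorem covDim_le_of {P : Type} [TopologicalSpace P] {k : ℕ} (h : CovDimLE P k) :
    covDim P ≤ ((k : ℝ) : EReal) := by
  unfold covDim
  split_ifs
  · exact bot_le
  · exact iInf₂_le k h

theorem exists_of_covDim {P : Type} [TopologicalSpace P] (h : covDim P < ⊤) :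
    ∃ k, CovDimLE P k := by
  by_contra hcon
  push Not at hcon
  unfold covDim at h
  split_ifs at h with h1
  · apply hcon 0
    intro U _
    refine ⟨∅, ⟨finite_empty, by simp, ?_⟩, by simp, fun p => (h1.false p).elim⟩
    exact Set.eq_univ_of_forall fun p => (h1.false p).elim
  · have : (⨅ (k : ℕ) (_ : CovDimLE P k), ((k : ℝ) : EReal)) = ⊤ := by
      simp only [iInf_eq_top]
      intro k hk
      exact absurd hk (hcon k)
    rw [this] at h
    exact lt_irrefl _ h

theorem covDimLE_of_walls {Λ : Type} [Fintype Λ] (P : Set (Λ → ℝ)) (hPc : IsCompact P)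
    (h0 : ∀ p ∈ P, ∀ l, 0 ≤ p l) (h1 : ∀ p ∈ P, ∀ l, p l ≤ 1) (k : ℕ) (ξ w : ℝ)
    (hξ0 : 0 ≤ ξ) (hξ1 : ξ ≤ 1) (hw : 0 < w) (hw2 : w < 1 / 2)
    (hk : ∀ n : ℕ, 0 < n → ∀ p ∈ P, {l | dZ (n * p l - ξ) < w}.ncard ≤ k) :
    CovDimLE P k := by
  classical
  intro U hU
  have : CompactSpace P := isCompact_iff_compactSpace.1 hPc
  obtain ⟨δ, hδ, hδU⟩ := lebesgue_number_lemma_of_metric_sUnion (s := (univ : Set P))
    isCompact_univ hU.isOpen (by rw [hU.cover])
  obtain ⟨n, hn⟩ := exists_nat_one_div_lt hδ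
  obtain ⟨V, hVf, hVo, hVc, hVm, hVk⟩ := walls_cover (Y := P) (univ : Set P)
    (fun l y => y.1 l) (fun l => (continuous_apply l).comp continuous_subtype_val)
    (fun l y => h0 y.1 y.2 l) (fun l y => h1 y.1 y.2 l) (n + 1) (Nat.succ_pos n) (fun _ => ξ)
    (fun _ => hξ0) (fun _ => hξ1) w hw hw2 k (fun z _ => hk (n + 1) (Nat.succ_pos n) z.1 z.2)
  refine ⟨{v | v ∈ V ∧ v.Nonempty}, ⟨hVf.subset fun v hv => hv.1, fun v hv => hVo v hv.1, ?_⟩,
    ?_, ?_⟩
  · apply Set.eq_univ_of_forall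
    intro p
    obtain ⟨v, hv, hp⟩ := hVc (mem_univ p)
    exact ⟨v, ⟨hv, ⟨p, hp⟩⟩, hp⟩
  · rintro v ⟨hv, ⟨y, hy⟩⟩
    obtain ⟨u, hu, hyu⟩ := hδU y (mem_univ y)
    refine ⟨u, hu, fun y' hy' => hyu ?_⟩
    rw [Metric.mem_ball]
    have h2 : dist y' y ≤ 1 / ((n + 1 : ℕ) : ℝ) := by
      rw [Subtype.dist_eq, dist_pi_le_iff (by positivity)]
      intro l
      rw [Real.dist_eq]
      exact hVm v hv y' hy' y hy l
    refine lt_of_le_of_lt h2 ?_
    push_cast
    exact hn
  · intro p
    refine le_trans (ncard_le_ncard ?_ (hVf.subset fun v hv => hv.1)) (hVk p)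
    rintro v ⟨hv, hp⟩
    exact ⟨hv.1, hp⟩

theorem dZ_int_sub (n : ℤ) {t : ℝ} (ht0 : 0 ≤ t) (ht : t ≤ 1 / 2) : t ≤ dZ (n - t) := by
  rw [dZ_eq]
  set m := round ((n : ℝ) - t)
  have e : (n : ℝ) - t - m = ((n - m : ℤ) : ℝ) - t := by push_cast; ring
  rw [e]
  rcases lt_trichotomy (n - m) 0 with h | h | h
  · have h1 : ((n - m : ℤ) : ℝ) ≤ -1 := by exact_mod_cast (by omega : n - m ≤ -1)
    rw [abs_of_neg (by linarith)]
    linarith
  · rw [h]; simp [abs_of_nonneg ht0]
  · have h1 : (1 : ℝ) ≤ ((n - m : ℤ) : ℝ) := by exact_mod_cast (by omega : 1 ≤ n - m)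
    rw [abs_of_nonneg (by linarith)]
    linarith

theorem dZ_sum_le {ι : Type} (s : Finset ι) (f : ι → ℝ) :
    dZ (∑ i ∈ s, f i) ≤ ∑ i ∈ s, dZ (f i) := by
  classical
  induction s using Finset.induction_on with
  | empty => simp [dZ]
  | insert a s ha ih =>
    rw [Finset.sum_insert ha, Finset.sum_insert ha]
    exact (dZ_add_le _ _).trans (add_le_add le_rfl ih)

section Row

variable {ι : Type} [Fintype ι]

/-- the wall parameter -/
def xi (ι : Type) [Fintype ι] : ℝ := 1 / (2 * (Fintype.card ι : ℝ) + 3)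

theorem xi_pos : 0 < xi ι := by unfold xi; positivity

theorem xi_lt : xi ι < 1 / 2 := by
  unfold xi
  have : (0 : ℝ) ≤ Fintype.card ι := by positivity
  rw [div_lt_div_iff₀ (by positivity) (by norm_num)]
  linarith

theorem row_sub (r : ι → ℝ) (n : ℕ) (v : ι) (hv : dZ (n * r v - xi ι) < xi ι) : r v ≠ 0 := by
  intro h
  rw [h, mul_zero] at hv
  have := dZ_int_sub 0 (t := xi ι) xi_pos.le xi_lt.le
  push_cast at this
  linarith

open Classical in
theorem row_le (r : ι → ℝ) (n D : ℕ) (hD : {v | r v ≠ 0}.ncard ≤ D + 1) :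
    (Finset.univ.filter fun v => dZ (n * r v - xi ι) < xi ι).card ≤ D + 1 := by
  refine le_trans ?_ hD
  rw [ncard_eq_toFinset_card']
  apply Finset.card_le_card
  intro v hv
  rw [Set.mem_toFinset]
  exact row_sub r n v (Finset.mem_filter.1 hv).2

open Classical in
theorem row_lt (r : ι → ℝ) (n D : ℕ) (hD : {v | r v ≠ 0}.ncard ≤ D + 1) (hs : ∑ v, r v = 1) :
    (Finset.univ.filter fun v => dZ (n * r v - xi ι) < xi ι).card ≤ D := by
  by_contra hcon
  push Not at hcon
  set W := Finset.univ.filter fun v => dZ (n * r v - xi ι) < xi ι with hW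
  have h1 := row_le r n D hD
  rw [← hW] at h1
  have hcard : W.card = D + 1 := by omega
  have hsub : W ⊆ Finset.univ.filter (fun v => r v ≠ 0) := by
    intro v hv
    exact Finset.mem_filter.2 ⟨Finset.mem_univ _, row_sub r n v (Finset.mem_filter.1 hv).2⟩
  have heq : W = Finset.univ.filter (fun v => r v ≠ 0) := by
    apply Finset.eq_of_subset_of_card_le hsub
    rw [hcard]
    refine le_trans (le_of_eq ?_) hD
    rw [ncard_eq_toFinset_card']
    congr 1
    ext v
    simp
  have hsum : ∑ v ∈ W, r v = 1 := by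
    rw [heq, Finset.sum_filter_ne_zero, hs]
  have hNc : (W.card : ℝ) ≤ Fintype.card ι := by exact_mod_cast Finset.card_le_univ W
  have hx := xi_pos (ι := ι)
  have hle : (W.card : ℝ) * xi ι ≤ 1 / 2 := by
    have : (W.card : ℝ) * xi ι ≤ Fintype.card ι * xi ι := mul_le_mul_of_nonneg_right hNc hx.le
    refine this.trans ?_
    unfold xi
    rw [mul_one_div, div_le_div_iff₀ (by positivity) (by norm_num)]
    linarith
  have h2 := dZ_int_sub (n : ℤ) (t := (W.card : ℝ) * xi ι) (by positivity) hle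
  have h3 : ((n : ℤ) : ℝ) - (W.card : ℝ) * xi ι = ∑ v ∈ W, (n * r v - xi ι) := by
    rw [Finset.sum_sub_distrib, ← Finset.mul_sum, hsum, Finset.sum_const, nsmul_eq_mul]
    push_cast; ring
  rw [h3] at h2
  have h4 : ∑ v ∈ W, dZ (n * r v - xi ι) < ∑ _v ∈ W, xi ι := by
    apply Finset.sum_lt_sum_of_nonempty
    · rw [← Finset.card_pos, hcard]; omega
    · intro v hv
      exact (Finset.mem_filter.1 hv).2
  rw [Finset.sum_const, nsmul_eq_mul] at h4
  have h5 := dZ_sum_le W (fun v => n * r v - xi ι)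
  linarith

open Classical in
/-- the wall count -/
theorem wall_count {L : Type} [Fintype L] (A : Finset L) (p : L × ι → ℝ) (n D t : ℕ)
    (hD : ∀ l, {v | p (l, v) ≠ 0}.ncard ≤ D + 1) (hA : ∀ l ∈ A, ∑ v, p (l, v) = 1)
    (ht : (Finset.univ.filter fun l => l ∉ A ∧ ∃ v, p (l, v) ≠ 0).card ≤ t) :
    {q | dZ (n * p q - xi ι) < xi ι}.ncard ≤ D * A.card + (D + 1) * t := by
  set W : L → Finset ι := fun l => Finset.univ.filter fun v => dZ (n * p (l, v) - xi ι) < xi ι
    with hW
  have h1 : {q | dZ (n * p q - xi ι) < xi ι}.ncard = ∑ l, (W l).card := by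
    rw [ncard_eq_toFinset_card', ← Finset.card_sigma]
    refine Finset.card_bij (fun q _ => ⟨q.1, q.2⟩) ?_ ?_ ?_
    · intro q hq
      rw [Set.mem_toFinset] at hq
      simp only [Finset.mem_sigma, Finset.mem_univ, true_and, hW, Finset.mem_filter]
      exact hq
    · intro q _ q' _ h
      simp only [Sigma.mk.injEq] at h
      exact Prod.ext h.1 (eq_of_heq h.2)
    · rintro ⟨l, v⟩ hlv
      simp only [Finset.mem_sigma, Finset.mem_univ, true_and, hW, Finset.mem_filter] at hlv
      refine ⟨(l, v), ?_, rfl⟩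
      rw [Set.mem_toFinset]
      exact hlv
  rw [h1]
  set T := Finset.univ.filter fun l => l ∉ A ∧ ∃ v, p (l, v) ≠ 0 with hT
  have h2 : ∀ l, (W l).card ≤ (if l ∈ A then D else 0) + (if l ∈ T then D + 1 else 0) := by
    intro l
    by_cases hl : l ∈ A
    · rw [if_pos hl]
      exact (row_lt (fun v => p (l, v)) n D (hD l) (hA l hl)).trans (Nat.le_add_right _ _)
    · by_cases hlT : l ∈ T
      · rw [if_pos hlT, if_neg hl, zero_add]
        exact row_le (fun v => p (l, v)) n D (hD l)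
      · have : W l = ∅ := by
          apply Finset.eq_empty_of_forall_notMem
          intro v hv
          apply hlT
          rw [hT, Finset.mem_filter]
          exact ⟨Finset.mem_univ _, hl, v, row_sub (fun v => p (l, v)) n v
            (Finset.mem_filter.1 hv).2⟩
        rw [this]; simp
  calc ∑ l, (W l).card ≤ ∑ l, ((if l ∈ A then D else 0) + (if l ∈ T then D + 1 else 0)) :=
        Finset.sum_le_sum fun l _ => h2 l
    _ = D * A.card + (D + 1) * T.card := by
        rw [Finset.sum_add_distrib, Finset.sum_ite_mem, Finset.sum_ite_mem, Finset.univ_inter,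
          Finset.univ_inter, Finset.sum_const, Finset.sum_const, smul_eq_mul, smul_eq_mul]
        ring
    _ ≤ D * A.card + (D + 1) * t := by
        exact Nat.add_le_add_left (Nat.mul_le_mul_left _ ht) _

end Row

end Pool.Agent.V11111.SD
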