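import Pool.Agent.V11111.SD.Dim
import Pool.Agent.V11111.SD.Comb

/-!
The sofic mean dimension of actions of infinite groups on finite-dimensional spaces.
-/

set_option autoImplicit false

open Filter Topology Set Pool.Agent.V11111.MD

noncomputable section

namespace Pool.Agent.V11111.SD

section Main

variable {Γ : Type} [Group Γ] {X : Type} [MetricSpace X] [CompactSpace X] [MulAction Γ X]
  [ContinuousConstSMul Γ X]

theorem mapS_closed (F : Finset Γ) (δ : ℝ) {d : ℕ} (σ : Γ → Equiv.Perm (Fin d)) :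
    IsClosed (MapS (X := X) F δ σ) := by
  have e : MapS (X := X) F δ σ = ⋂ s ∈ F, {φ | rhoTwo (fun a => φ (σ s a))
      (fun a => s • φ a) ≤ δ} := by
    ext φ
    simp only [MapS, Set.mem_ofPred_eq, Set.mem_iInter]
  rw [e]
  refine isClosed_biInter fun s _ => ?_
  apply isClosed_le _ continuous_const
  unfold rhoTwo
  refine Real.continuous_sqrt.comp (Continuous.div_const ?_ _)
  refine continuous_finsetSum _ fun a _ => ?_
  refine Continuous.pow ?_ 2
  exact (continuous_apply _).dist ((continuous_const_smul s).comp (continuous_apply a))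

/-- the error weight -/
def wt (κ : ℝ) (g h : Γ) (x y : X) : ℝ := min 1 (max (dist (g • x) (h • y) - κ) 0)

theorem wt_nonneg (κ : ℝ) (g h : Γ) (x y : X) : 0 ≤ wt κ g h x y :=
  le_min zero_le_one (le_max_right _ _)

theorem wt_le (κ : ℝ) (g h : Γ) (x y : X) : wt κ g h x y ≤ 1 := min_le_left _ _

theorem wt_zero {κ : ℝ} {g h : Γ} {x y : X} (hw : wt κ g h x y = 0) :
    dist (g • x) (h • y) ≤ κ := by
  unfold wt at hw
  by_contra hcon
  push Not at hcon
  have : 0 < min 1 (max (dist (g • x) (h • y) - κ) 0) :=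
    lt_min one_pos (lt_max_of_lt_left (by linarith))
  linarith

theorem wt_ne {κ : ℝ} {g h : Γ} {x y : X} (hw : wt κ g h x y ≠ 0) :
    κ < dist (g • x) (h • y) := by
  by_contra hcon
  push Not at hcon
  apply hw
  unfold wt
  rw [max_eq_right (by linarith), min_eq_right zero_le_one]

open Classical in
theorem widim_le {D : ℕ} (hD : CovDimLE X D) {ε : ℝ} (hε : 0 < ε) (F : Finset Γ) {κ : ℝ}
    (hκ : 0 < κ) (hκF : ∀ g ∈ F, ∀ x y : X, dist (g • x) (g • y) ≤ 3 * κ → dist x y < ε)
    {δ : ℝ} (hδ : 0 < δ) {d : ℕ} (hd : 0 < d) (σ : Γ → Equiv.Perm (Fin d)) :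
    ∃ S : Finset (Fin d), S.card * F.card ≤ d ∧
      Widim ε (MapS (X := X) F δ σ) ≤
      (((D * (S.card + (Finset.univ.filter fun k => ¬ ∀ g ∈ F, ∀ h ∈ F, g ≠ h →
          σ g k ≠ σ h k).card) + (D + 1) *
        ⌊(1 + (F.card : ℝ) ^ 2) * (F.card * (δ ^ 2 / (κ / 2) ^ 2 * d))⌋₊ : ℕ) : ℝ) : EReal) := by
  obtain ⟨η, hη, hηε, hηF⟩ := exists_eta (X := X) F hε hκ
  obtain ⟨ι, _, π, hπc, hπ0, hπ1, hπD, hπm⟩ := exists_pi hD hη
  obtain ⟨S, hSc, hSm⟩ := exists_maxset F σ
  refine ⟨S, hSc, ?_⟩
  set B := Finset.univ.filter fun k => ¬ ∀ g ∈ F, ∀ h ∈ F, g ≠ h → σ g k ≠ σ h k with hB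
  set A := S ∪ B with hA
  set t := ⌊(1 + (F.card : ℝ) ^ 2) * (F.card * (δ ^ 2 / (κ / 2) ^ 2 * d))⌋₊ with ht
  have hch : ∀ l : Fin d, ∃ (s : Fin d) (g h : Γ), l ∉ A → s ∈ S ∧ g ∈ F ∧ h ∈ F ∧
      σ g l = σ h s := by
    intro l
    by_cases hl : l ∈ A
    · exact ⟨l, 1, 1, fun h => absurd hl h⟩
    · rw [hA, Finset.mem_union, not_or] at hl
      have h2 : ∀ g ∈ F, ∀ h ∈ F, g ≠ h → σ g l ≠ σ h l := by
        by_contra hcon
        exact hl.2 (Finset.mem_filter.2 ⟨Finset.mem_univ _, hcon⟩)
      obtain ⟨s, hs, g, hg, h, hh, e⟩ := hSm l h2 hl.1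
      exact ⟨s, g, h, fun _ => ⟨hs, hg, hh, e⟩⟩
  choose s g h hsgh using hch
  set W : (Fin d → X) → Fin d → ℝ := fun φ l =>
    if l ∈ A then 1 else wt κ (g l) (h l) (φ l) (φ (s l)) with hW
  set f : (Fin d → X) → Fin d × ι → ℝ := fun φ q => W φ q.1 * π (φ q.1) q.2 with hf
  have hWc : ∀ l, Continuous fun φ => W φ l := by
    intro l
    simp only [hW]
    by_cases hl : l ∈ A
    · simp only [hl, if_true]; exact continuous_const
    · simp only [hl, if_false]
      unfold wt
      refine continuous_const.min (Continuous.max (Continuous.sub ?_ continuous_const)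
        continuous_const)
      exact ((continuous_const_smul (g l)).comp (continuous_apply l)).dist
        ((continuous_const_smul (h l)).comp (continuous_apply (s l)))
  have hfc : Continuous f := by
    refine continuous_pi fun q => ?_
    exact (hWc q.1).mul ((hπc q.2).comp (continuous_apply q.1))
  have hW0 : ∀ φ l, 0 ≤ W φ l := by
    intro φ l
    simp only [hW]
    split_ifs
    · exact zero_le_one
    · exact wt_nonneg _ _ _ _ _
  have hW1 : ∀ φ l, W φ l ≤ 1 := by
    intro φ l
    simp only [hW]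
    split_ifs
    · exact le_rfl
    · exact wt_le _ _ _ _ _
  have hπ_le : ∀ x v, π x v ≤ 1 := by
    intro x v
    rw [← hπ1 x]
    exact Finset.single_le_sum (fun v _ => hπ0 x v) (Finset.mem_univ v)
  have hrow : ∀ φ l, ∑ v, f φ (l, v) = W φ l := by
    intro φ l
    simp only [hf]
    rw [← Finset.mul_sum, hπ1, mul_one]
  have hπeq : ∀ x y : X, (∀ v, π x v = π y v) → dist x y < η := by
    intro x y hxy
    have : ∃ v, π x v ≠ 0 := by
      by_contra hcon
      push Not at hcon
      have := hπ1 x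
      simp [hcon] at this
    obtain ⟨v, hv⟩ := this
    exact hπm x y v hv (by rw [← hxy v]; exact hv)
  -- the map is an embedding up to `ε`
  have hemb : ∀ φ φ' : Fin d → X, f φ = f φ' → dist φ φ' < ε := by
    intro φ φ' hff
    rw [dist_pi_lt_iff hε]
    have hWW : ∀ l, W φ l = W φ' l := by
      intro l
      rw [← hrow, ← hrow, hff]
    have hne : ∀ l, W φ l ≠ 0 → dist (φ l) (φ' l) < η := by
      intro l hl
      apply hπeq
      intro v
      have h1 := congrFun hff (l, v)
      simp only [hf] at h1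
      rw [← hWW l] at h1
      exact mul_left_cancel₀ hl h1
    intro l
    by_cases hl : W φ l = 0
    · have hlA : l ∉ A := by
        intro hlA
        simp only [hW, hlA, if_true] at hl
        exact one_ne_zero hl
      obtain ⟨hs, hg, hh, he⟩ := hsgh l hlA
      have hl' : W φ' l = 0 := by rw [← hWW]; exact hl
      simp only [hW, hlA, if_false] at hl hl'
      have h1 := wt_zero hl
      have h2 := wt_zero hl'
      have hsA : s l ∈ A := Finset.mem_union_left _ hs
      have h3 : dist (φ (s l)) (φ' (s l)) < η := by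
        apply hne
        simp only [hW, hsA, if_true]
        exact one_ne_zero
      have h4 := hηF (h l) hh _ _ h3
      apply hκF (g l) hg
      calc dist (g l • φ l) (g l • φ' l) ≤ dist (g l • φ l) (h l • φ (s l)) +
            dist (h l • φ (s l)) (h l • φ' (s l)) + dist (h l • φ' (s l)) (g l • φ' l) :=
            dist_triangle4 _ _ _ _
        _ ≤ κ + κ + κ := by
            rw [dist_comm (h l • φ' (s l))]
            linarith
        _ = 3 * κ := by ring
    · exact (hne l hl).trans_le hηε
  -- counting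
  have hcount : ∀ φ ∈ MapS (X := X) F δ σ,
      (Finset.univ.filter fun l => l ∉ A ∧ ∃ v, f φ (l, v) ≠ 0).card ≤ t := by
    intro φ hφ
    set E := F.biUnion fun g => Finset.univ.filter fun k => κ / 2 ≤ dist (φ (σ g k)) (g • φ k)
      with hE
    have hEc : (E.card : ℝ) ≤ F.card * (δ ^ 2 / (κ / 2) ^ 2 * d) := by
      calc (E.card : ℝ) ≤ ((∑ g ∈ F, (Finset.univ.filter fun k =>
            κ / 2 ≤ dist (φ (σ g k)) (g • φ k)).card : ℕ) : ℝ) := by
            exact_mod_cast Finset.card_biUnion_le
        _ = ∑ g ∈ F, ((Finset.univ.filter fun k =>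
            κ / 2 ≤ dist (φ (σ g k)) (g • φ k)).card : ℝ) := by push_cast; rfl
        _ ≤ ∑ _g ∈ F, (δ ^ 2 / (κ / 2) ^ 2 * d) := by
            apply Finset.sum_le_sum
            intro g hg
            exact cheb hd _ _ hδ.le (by positivity) (hφ g hg)
        _ = F.card * (δ ^ 2 / (κ / 2) ^ 2 * d) := by rw [Finset.sum_const, nsmul_eq_mul]
    set R := (E ×ˢ (F ×ˢ F)).image fun q : Fin d × (Γ × Γ) => (σ q.2.1).symm (σ q.2.2 q.1)
      with hR
    have hRc : R.card ≤ E.card * (F.card * F.card) := by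
      refine Finset.card_image_le.trans (le_of_eq ?_)
      rw [Finset.card_product, Finset.card_product]
    have hsub : (Finset.univ.filter fun l => l ∉ A ∧ ∃ v, f φ (l, v) ≠ 0) ⊆ E ∪ R := by
      intro l hl
      obtain ⟨_, hlA, v, hv⟩ := Finset.mem_filter.1 hl
      obtain ⟨hs, hg, hh, he⟩ := hsgh l hlA
      have hw : wt κ (g l) (h l) (φ l) (φ (s l)) ≠ 0 := by
        intro h0
        apply hv
        simp only [hf, hW, hlA, if_false, h0, zero_mul]
      have h1 := wt_ne hw
      rw [Finset.mem_union]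
      by_cases hlE : l ∈ E
      · exact Or.inl hlE
      · right
        have h2 : dist (φ (σ (g l) l)) (g l • φ l) < κ / 2 := by
          by_contra hcon
          push Not at hcon
          exact hlE (Finset.mem_biUnion.2 ⟨g l, hg, Finset.mem_filter.2
            ⟨Finset.mem_univ _, hcon⟩⟩)
        have h3 : s l ∈ E := by
          refine Finset.mem_biUnion.2 ⟨h l, hh, Finset.mem_filter.2 ⟨Finset.mem_univ _, ?_⟩⟩
          have h4 := dist_triangle (g l • φ l) (φ (σ (g l) l)) (h l • φ (s l))
          rw [dist_comm (g l • φ l) (φ (σ (g l) l))] at h4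
          rw [← he]
          linarith
        rw [hR, Finset.mem_image]
        refine ⟨(s l, (g l, h l)), ?_, ?_⟩
        · rw [Finset.mem_product, Finset.mem_product]
          exact ⟨h3, hg, hh⟩
        · simp only
          rw [Equiv.symm_apply_eq]
          exact he.symm
    rw [ht]
    apply Nat.le_floor
    calc (((Finset.univ.filter fun l => l ∉ A ∧ ∃ v, f φ (l, v) ≠ 0).card : ℕ) : ℝ) ≤
          ((E ∪ R).card : ℝ) := by exact_mod_cast Finset.card_le_card hsub
      _ ≤ (E.card : ℝ) + R.card := by exact_mod_cast Finset.card_union_le _ _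
      _ ≤ E.card + E.card * (F.card * F.card) := by
          have : (R.card : ℝ) ≤ E.card * (F.card * F.card) := by exact_mod_cast hRc
          linarith
      _ = (1 + (F.card : ℝ) ^ 2) * E.card := by ring
      _ ≤ _ := mul_le_mul_of_nonneg_left hEc (by positivity)
  -- the space
  have hcomp : CompactSpace (MapS (X := X) F δ σ) :=
    isCompact_iff_compactSpace.1 (mapS_closed F δ σ).isCompact
  set P : Set (Fin d × ι → ℝ) := range fun z : MapS (X := X) F δ σ => f z.1 with hP
  have hPc : IsCompact P := isCompact_range (hfc.comp continuous_subtype_val)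
  have hPcs : CompactSpace P := isCompact_iff_compactSpace.1 hPc
  have hdimP : CovDimLE P (D * (S.card + B.card) + (D + 1) * t) := by
    refine covDimLE_of_walls P hPc ?_ ?_ _ (xi ι) (xi ι) xi_pos.le (by linarith [xi_lt (ι := ι)])
      xi_pos xi_lt ?_
    · rintro _ ⟨z, rfl⟩ q
      exact mul_nonneg (hW0 _ _) (hπ0 _ _)
    · rintro _ ⟨z, rfl⟩ q
      exact mul_le_one₀ (hW1 _ _) (hπ0 _ _) (hπ_le _ _)
    · rintro n _ _ ⟨z, rfl⟩
      refine (wall_count A (f z.1) n D t ?_ ?_ (by convert hcount z.1 z.2)).trans ?_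
      · intro l
        refine le_trans (ncard_le_ncard ?_ (toFinite _)) (hπD (z.1 l))
        intro v hv
        simp only [Set.mem_ofPred_eq, hf] at hv ⊢
        exact fun h0 => hv (by rw [h0, mul_zero])
      · intro l hl
        rw [hrow]
        simp only [hW, hl, if_true]
      · exact Nat.add_le_add_right (Nat.mul_le_mul_left _ (Finset.card_union_le _ _)) _
  have hle := covDim_le_of hdimP
  refine le_trans ?_ hle
  unfold Widim
  refine iInf_le_of_le P (iInf_le_of_le inferInstance (iInf_le_of_le hPcs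
    (iInf_le_of_le inferInstance (iInf_le_of_le (fun z => ⟨f z.1, z, rfl⟩)
      (iInf_le_of_le ?_ (iInf_le_of_le ?_ le_rfl))))))
  · exact Continuous.subtype_mk (hfc.comp continuous_subtype_val) _
  · intro z z' hzz
    exact hemb z.1 z'.1 (Subtype.mk.inj hzz)

end Main

end Pool.Agent.V11111.SD
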